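import Pool.Agent.Helper96.SE.Stmts
import Pool.Agent.Helper99.BC.SPL

/-! # Module SPL: the split for the interpolation (subtour elimination inequalities) -/

set_option autoImplicit false

namespace Pool.Agent.Helper96.SE

open Pool.Agent.Helper31.BC (dst tourLen Placement Pair Ineq Refutes PCl chs chf xv inn sel col vr
  PChoice spl_rows spl_zero)
open Pool.Agent.Helper38.MR (Edge Graph clq mpt Gate Simple out trv)
open Pool.Agent.Helper52.Grid
open Pool.Agent.Helper68.LP (pert dbl ucost scale Costs padded sc)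

theorem spl_h13 (s : List Sub) (M : ℕ) (T : ℕ → Bool) : hN s M T 1 3 = 0 := by
  rw [hN_old (by omega)]
  simp [hC, hT]


theorem spl_sepe {A B : Type} (F : A → B → ℤ) (α0 : A) (β0 : B)
    (h : (∀ α β β', F α β = F α β') ∨ (∀ α α' β, F α β = F α' β)) :
    ∃ (f : A → ℤ) (g : B → ℤ), ∀ α β, F α β = f α + g β := by
  rcases h with h | h
  · exact ⟨fun α => F α β0, fun _ => 0, fun α β => by rw [h α β β0, add_zero]⟩
  · exact ⟨fun _ => 0, fun β => F α0 β, fun α β => by rw [h α α0 β, zero_add]⟩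

theorem st_SPL (hDEG : ST_DEG) (hCNN : ST_CNN) (hPTY : ST_PTY) (hREL : ST_REL) (hCUT : ST_CUT)
    (hFRM : ST_FRM) (hFRP : ST_FRP) (hLIT : ST_LIT) (hCFL : ST_CFL) (hSBS : ST_SBS)
    (hCST : ST_CST) (hCHS : Pool.Agent.Helper31.BC.ST_CHS) : ST_SPL := by
  intro k q l N W n p hq hl hk hn hB hp hV hW
  set φ : CNF := ccF k q l with hφ
  set s : List Sub := subs φ with hs
  set M : ℕ := ccM k q l with hM
  set T : ℕ → Bool := tl (k * q) l with hT
  let σ0 : Fin k → Fin q := fun _ => ⟨0, hq⟩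
  let χ0 : Fin (k * q) → Fin l := fun _ => ⟨0, hl⟩
  have hVT : VT M T := (hFRM k q l σ0 χ0).2.2.2
  have hrows : ∀ j i d, sg s j = some (i, d) → i < 2 * M + 1 := by
    intro j i d h
    exact spl_rows (hFRM k q l σ0 χ0).2.2.1 j i d h
  have hzero : 0 < s.length → sg s 0 = none := spl_zero _
  have hmap : ∀ (σ : Fin k → Fin q) (χ : Fin (k * q) → Fin l),
      subs ((pcc σ χ).map Prod.fst) = s := fun σ χ => by rw [(hFRM k q l σ χ).1]
  have hch : ∀ (σ : Fin k → Fin q) (χ : Fin (k * q) → Fin l),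
      Choice s (asg σ χ) (chf (pcc σ χ)) := by
    intro σ χ
    have h1 := hCHS (pcc σ χ) (hFRM k q l σ χ).2.1
    rw [hmap] at h1
    refine ⟨fun j hj => ?_, h1.1.one⟩
    obtain ⟨x, hx, y, hy, h2, h3⟩ := h1.2.2 j hj
    refine ⟨y.1, h2, ?_⟩
    have h4 := h3 (asg σ χ)
    rw [hLIT k q l σ χ x hx y hy, beq_self_eq_true] at h4
    have h5 : (asg σ χ y.1 == decide (cnt s y.1 j % 2 = 0)) = true := h4
    exact beq_iff_eq.1 h5
  let HU : (Fin k → Fin q) → (Fin (k * q) → Fin l) → ℕ → ℕ → Bool := fun σ χ =>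
    hNU s M T (asg σ χ) (chf (pcc σ χ))
  let VU : (Fin k → Fin q) → (Fin (k * q) → Fin l) → ℕ → ℕ → Bool := fun σ χ =>
    vNU s M T (asg σ χ) (chf (pcc σ χ))
  have hBV : ∀ σ χ, BV (hN s M T) (vN s M T) (HU σ χ) (VU σ χ) := fun σ χ =>
    hDEG s M T _ _ hrows hzero hVT (hch σ χ)
  let X : (Fin k → Fin q) → (Fin (k * q) → Fin l) → Pair n → ℤ := fun σ χ =>
    xb (HU σ χ) (VU σ χ) p
  have hrel : ∀ (σ : Fin k → Fin q) (χ : Fin (k * q) → Fin l),
      TwoFactor (fun i => pert (dbl (hN s M T)) (dbl (vN s M T)) (scale n (2 * N) 4 W : ℕ) (p i))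
        ((n * scale n (2 * N) 4 W + (2 * W + 1) : ℕ) : ℝ) (X σ χ) := fun σ χ =>
    hREL n N W _ _ _ _ p hB (hCST s M T) (hBV σ χ) hn hp hV hW
  -- the parties
  have hpar := fun x y => hPTY s M T (prw (k * q) l) (pco k q l)
    (fun j i d h => (hFRP k q l σ0 σ0 χ0 χ0).2.2.2.2 j i d h) x y
  have hHU : ∀ x y, (∀ σ χ χ', HU σ χ x y = HU σ χ' x y) ∨
      (∀ σ σ' χ, HU σ χ x y = HU σ' χ x y) := by
    intro x y
    obtain ⟨b, hb⟩ := (hpar x y).1
    cases b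
    · right
      intro σ σ' χ
      exact hb _ _ _ _ (hFRP k q l σ σ' χ χ).2.1 (hFRP k q l σ σ' χ χ).2.2.2.1
    · left
      intro σ χ χ'
      exact hb _ _ _ _ (hFRP k q l σ σ χ χ').1 (hFRP k q l σ σ χ χ').2.2.1
  have hVU : ∀ x y, (∀ σ χ χ', VU σ χ x y = VU σ χ' x y) ∨
      (∀ σ σ' χ, VU σ χ x y = VU σ' χ x y) := by
    intro x y
    obtain ⟨b, hb⟩ := (hpar x y).2
    cases b
    · right
      intro σ σ' χ
      exact hb _ _ _ _ (hFRP k q l σ σ' χ χ).2.1 (hFRP k q l σ σ' χ χ).2.2.2.1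
    · left
      intro σ χ χ'
      exact hb _ _ _ _ (hFRP k q l σ σ χ χ').1 (hFRP k q l σ σ χ χ').2.2.1
  have hX : ∀ e, (∀ σ χ χ', X σ χ e = X σ χ' e) ∨ (∀ σ σ' χ, X σ χ e = X σ' χ e) := by
    intro e
    simp only [X, xb, xv, ucost]
    split_ifs
    · exact (hHU _ _).imp (fun h σ χ χ' => by rw [h σ χ χ']) (fun h σ σ' χ => by rw [h σ σ' χ])
    · exact (hHU _ _).imp (fun h σ χ χ' => by rw [h σ χ χ']) (fun h σ σ' χ => by rw [h σ σ' χ])
    · exact (hVU _ _).imp (fun h σ χ χ' => by rw [h σ χ χ']) (fun h σ σ' χ => by rw [h σ σ' χ])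
    · exact (hVU _ _).imp (fun h σ χ χ' => by rw [h σ χ χ']) (fun h σ σ' χ => by rw [h σ σ' χ])
    · exact Or.inl fun _ _ _ => rfl
  have hfg : ∀ e, ∃ fg : ((Fin k → Fin q) → ℤ) × ((Fin (k * q) → Fin l) → ℤ),
      ∀ σ χ, X σ χ e = fg.1 σ + fg.2 χ := by
    intro e
    obtain ⟨f, g, h⟩ := spl_sepe (fun σ χ => X σ χ e) σ0 χ0 (hX e)
    exact ⟨(f, g), h⟩
  choose FG hFG using hfg
  have hXfg : ∀ σ χ, (fun e => (FG e).1 σ + (FG e).2 χ) = X σ χ := by
    intro σ χ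
    funext e
    exact (hFG e σ χ).symm
  -- the edge which is always used
  have hV1 : Vert (hN s M T) (vN s M T) (1, 3) := Or.inl (spl_h13 s M T)
  have hV2 : Vert (hN s M T) (vN s M T) (2, 3) := Or.inr (Or.inl (spl_h13 s M T))
  obtain ⟨i1, hi1⟩ := (hV _).1 hV1
  obtain ⟨i2, hi2⟩ := (hV _).1 hV2
  have hne : i1 ≠ i2 := by
    rintro rfl
    rw [hi1] at hi2
    exact absurd (congrArg Prod.fst hi2) (by simp)
  have hu1 : ∀ σ χ, HU σ χ 1 3 = true := fun σ χ => (hBV σ χ).h0 1 3 (spl_h13 s M T)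
  have he0 : ∃ e₀ : Pair n, ∀ σ χ, X σ χ e₀ = 1 := by
    rcases lt_or_gt_of_ne hne with h | h
    · refine ⟨⟨(i1, i2), h⟩, fun σ χ => ?_⟩
      simp only [X, xb, xv, ucost, hi1, hi2]
      rw [if_pos (by simp), hu1 σ χ]
      rfl
    · refine ⟨⟨(i2, i1), h⟩, fun σ χ => ?_⟩
      simp only [X, xb, xv, ucost, hi1, hi2]
      rw [if_neg (by omega), if_pos (by simp), hu1 σ χ]
      rfl
  obtain ⟨e₀, he₀⟩ := he0
  refine ⟨fun σ e => (FG e).1 σ, fun χ e => (FG e).2 χ, e₀, ⟨fun σ χ => ?_, ?_⟩, fun σ χ => ?_⟩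
  · rw [hXfg]
    exact hrel σ χ
  · intro S hS hS'
    -- the test vertex
    have hb : ∃ b, Vert (hN s M T) (vN s M T) b ∧
        ¬ ((∃ i ∈ S, p i = b) ↔ (∃ i ∈ S, p i = ((1, 3) : Pt))) := by
      by_cases h13 : ∃ i ∈ S, p i = ((1, 3) : Pt)
      · have h1 : ∃ j, j ∉ S := by
          by_contra hcon
          push Not at hcon
          exact hS' (Finset.eq_univ_iff_forall.2 hcon)
        obtain ⟨j, hj⟩ := h1
        refine ⟨p j, (hV _).2 ⟨j, rfl⟩, fun h => ?_⟩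
        obtain ⟨i, hi, h2⟩ := h.2 h13
        rw [hp h2] at hi
        exact hj hi
      · obtain ⟨j, hj⟩ := hS
        exact ⟨p j, (hV _).2 ⟨j, rfl⟩, fun h => h13 (h.1 ⟨j, hj, rfl⟩)⟩
    obtain ⟨b, hbV, hb⟩ := hb
    have key : ∀ σ χ, ¬ (subtour S).Holds (fun e => (FG e).1 σ + (FG e).2 χ) →
        ∃ i, T i = true ∧ asg σ χ i = true ∧ asg σ χ (i + 1) = true ∧ 4 + 6 * i ≤ b.2 ∧
          b.2 < 16 + 6 * i := by
      intro σ χ hno
      rw [hXfg] at hno
      have h1 := hCUT n N _ _ _ _ p hB (hBV σ χ) hp hV S hno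
      have h2 := hCNN s M T _ _ hrows hzero hVT (hch σ χ) _ h1 b hbV
      rcases h2 with h2 | ⟨i, h3, h4, h5, h6, h7⟩
      · exact absurd h2 hb
      · rw [hs, hSBS] at h4 h5
        exact ⟨i, h3, h4, h5, h6, h7⟩
    by_cases hex : ∃ i, T i = true ∧ 4 + 6 * i ≤ b.2 ∧ b.2 < 16 + 6 * i
    · obtain ⟨i, hTi, h1, h2⟩ := hex
      obtain ⟨u, v, huv, h3⟩ := hCFL k q l i hTi
      refine ⟨⟨(u, v), huv⟩, fun σ χ hno => ?_⟩
      obtain ⟨i', hTi', h4, h5, h6, h7⟩ := key σ χ hno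
      have hii : i' = i := by
        by_contra hne'
        rcases lt_or_gt_of_ne hne' with h | h
        · have h8 : i = i' + 1 := by omega
          have h9 := hVT.sep i' hTi'
          rw [← h8, hTi] at h9
          exact absurd h9 (by simp)
        · have h8 : i' = i + 1 := by omega
          have h9 := hVT.sep i hTi
          rw [← h8, hTi'] at h9
          exact absurd h9 (by simp)
      subst hii
      obtain ⟨h8, h9, h10⟩ := h3 σ χ h4 h5
      constructor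
      · simp only [clq, decide_eq_true_iff]
        exact ⟨h8, h9⟩
      · simp only [mpt, decide_eq_false_iff_not, not_not]
        exact h10
    · have h2 : 2 ≤ k * q := by nlinarith
      refine ⟨⟨(⟨0, by omega⟩, ⟨1, by omega⟩), by simp [Fin.lt_def]⟩, fun σ χ hno => ?_⟩
      obtain ⟨i, h3, _, _, h4, h5⟩ := key σ χ hno
      exact absurd ⟨i, h3, h4, h5⟩ hex
  · rw [← hFG e₀ σ χ]
    exact he₀ σ χ

end Pool.Agent.Helper96.SE
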