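import Pool.Agent.Helper96.SE.Stmts2
import Pool.Agent.Helper72.SE.CN2

/-! # Module CN3: the additional columns, with the conflict cycles -/

set_option autoImplicit false

namespace Pool.Agent.Helper96.SE

open Pool.Agent.Helper52.Grid

def cn3Ck (hu vu : ℕ → ℕ → Bool) (h v : ℕ → ℕ → ℕ) (W : ℕ) (an : List (ℕ × ℕ))
    (ps : List (List (ℕ × ℕ))) (cs : List ((ℕ × ℕ) × List (ℕ × ℕ))) : Bool :=
  (ps.all fun l => cn2Ch hu vu W l && an.any fun p => cn2El l p.1 p.2) &&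
    (cs.all fun c => cn2Ch hu vu W c.2 && cn2El c.2 c.1.1 c.1.2) &&
    (List.range 19).all fun x => (List.range W).all fun y =>
      !cn2Vt h v x y || (ps.any fun l => cn2El l x y) || cs.any fun c => cn2El c.2 x y

theorem cn3_ck {S' : ℕ × ℕ → Prop} {hu vu : ℕ → ℕ → Bool} {W : ℕ} {h v : ℕ → ℕ → ℕ}
    {an : List (ℕ × ℕ)} {ps : List (List (ℕ × ℕ))} {cs : List ((ℕ × ℕ) × List (ℕ × ℕ))}
    (hc : cn3Ck hu vu h v W an ps cs = true)
    (hh : ∀ x y, y < W → hu x y = true → (S' (x, y) ↔ S' (x + 1, y)))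
    (hv : ∀ x y, y < W → vu x y = true → (S' (x, y) ↔ S' (x, y + 1))) (Q : Prop)
    (ha : ∀ p ∈ an, (S' p ↔ Q)) (x y : ℕ) (hx : x < 19) (hy : y < W)
    (hV : cn2Vt h v x y = true) : (S' (x, y) ↔ Q) ∨ ∃ c ∈ cs, (S' (x, y) ↔ S' c.1) := by
  unfold cn3Ck at hc
  rw [Bool.and_eq_true, Bool.and_eq_true, List.all_eq_true, List.all_eq_true,
    List.all_eq_true] at hc
  obtain ⟨⟨h1, h1'⟩, h2⟩ := hc
  have h3 := h2 x (List.mem_range.2 hx)
  rw [List.all_eq_true] at h3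
  have h4 := h3 y (List.mem_range.2 hy)
  rw [hV, Bool.not_true, Bool.false_or, Bool.or_eq_true, List.any_eq_true, List.any_eq_true] at h4
  rcases h4 with ⟨l, hl, hel⟩ | ⟨c, hc, hel⟩
  · left
    have h5 := h1 l hl
    rw [Bool.and_eq_true, List.any_eq_true] at h5
    obtain ⟨h6, ⟨p, hp, h7⟩⟩ := h5
    rw [cn2_ch' hh hv l h6 (x, y) (p.1, p.2) (cn2_el hel) (cn2_el h7)]
    exact ha p hp
  · right
    have h5 := h1' c hc
    rw [Bool.and_eq_true] at h5
    exact ⟨c, hc, cn2_ch' hh hv c.2 h5.1 (x, y) (c.1.1, c.1.2) (cn2_el hel) (cn2_el h5.2)⟩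

/-! ### data -/

def cn3P0 : List (List (ℕ × ℕ)) :=
  [[(0, 1), (1, 1), (2, 1), (3, 1), (4, 1), (4, 2), (5, 2), (5, 3), (4, 3), (3, 3), (3, 2),
   (2, 2), (2, 3), (2, 4), (2, 5), (3, 5), (4, 5), (4, 4), (5, 4), (5, 5), (6, 5), (6, 4),
   (7, 4), (8, 4), (9, 4), (10, 4), (10, 5), (11, 5), (12, 5), (13, 5), (14, 5), (15, 5),
   (16, 5), (16, 4), (16, 3), (15, 3), (14, 3), (13, 3), (12, 3), (11, 3), (10, 3), (9, 3),
   (8, 3), (7, 3), (6, 3), (6, 2), (6, 1), (7, 1), (8, 1), (9, 1), (10, 1), (11, 1), (12, 1),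
   (13, 1), (14, 1), (15, 1), (16, 1), (17, 1), (17, 2), (17, 3), (17, 4), (18, 4), (18, 3),
   (18, 2), (18, 1), (18, 0)],
  [(0, 3), (0, 2), (1, 2), (1, 3), (1, 4), (1, 5), (0, 5)],
  [(0, 7), (1, 7), (2, 7), (3, 7), (4, 7), (4, 6), (5, 6), (5, 7), (6, 7), (7, 7), (7, 8),
   (7, 9), (7, 10), (7, 11), (8, 11), (9, 11), (10, 11), (11, 11), (12, 11), (13, 11), (13,
   10), (13, 9), (14, 9), (14, 10), (14, 11), (15, 11), (16, 11), (16, 10), (16, 9), (15, 9),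
   (15, 8), (14, 8), (14, 7), (15, 7), (16, 7), (17, 7), (17, 8), (17, 9), (17, 10), (18,
   10), (18, 11)],
  [(0, 9), (0, 8), (1, 8), (1, 9), (1, 10), (1, 11), (0, 11)]]

def cn3P1 : List (List (ℕ × ℕ)) :=
  [[(0, 1), (1, 1), (2, 1), (3, 1), (4, 1), (4, 2), (5, 2), (5, 3), (4, 3), (3, 3), (3, 2),
   (2, 2), (2, 3), (2, 4), (2, 5), (3, 5), (4, 5), (4, 4), (5, 4), (5, 5), (6, 5), (6, 4),
   (7, 4), (8, 4), (9, 4), (10, 4), (10, 5), (11, 5), (12, 5), (13, 5), (14, 5), (15, 5),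
   (16, 5), (16, 4), (16, 3), (15, 3), (14, 3), (13, 3), (12, 3), (11, 3), (10, 3), (9, 3),
   (8, 3), (7, 3), (6, 3), (6, 2), (6, 1), (7, 1), (8, 1), (9, 1), (10, 1), (11, 1), (12, 1),
   (13, 1), (14, 1), (15, 1), (16, 1), (17, 1), (17, 2), (17, 3), (17, 4), (18, 4), (18, 5),
   (18, 6), (18, 7), (18, 8), (18, 9), (18, 10), (17, 10), (17, 9), (17, 8), (17, 7), (16,
   7), (15, 7), (14, 7), (14, 8), (15, 8), (15, 9), (16, 9), (16, 10), (16, 11), (15, 11),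
   (14, 11), (14, 10), (14, 9), (13, 9), (13, 10), (13, 11), (12, 11), (11, 11), (10, 11),
   (9, 11), (8, 11), (7, 11), (7, 10), (7, 9), (7, 8), (7, 7), (6, 7), (5, 7), (5, 6), (4,
   6), (4, 7), (3, 7), (2, 7), (1, 7), (0, 7)],
  [(0, 3), (0, 2), (1, 2), (1, 3), (1, 4), (1, 5), (0, 5)],
  [(0, 9), (0, 8), (1, 8), (1, 9), (1, 10), (1, 11), (0, 11)]]

def cn3C : List ((ℕ × ℕ) × List (ℕ × ℕ)) :=
  [((3, 8), [(2, 8), (2, 9), (2, 10), (2, 11), (3, 11), (4, 11), (5, 11), (5, 10), (5, 9),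
   (6, 9), (6, 8), (5, 8), (4, 8), (4, 9), (3, 9), (3, 8)]),
  ((9, 9), [(7, 5), (7, 6), (8, 6), (8, 7), (8, 8), (8, 9), (9, 9), (10, 9), (11, 9), (12,
   9), (12, 8), (13, 8), (13, 7), (12, 7), (11, 7), (10, 7), (9, 7), (9, 6), (9,
   5), (8, 5)])]

theorem cn3_ckP (e : ℕ) (he : e < 2) :
    ∃ ps, cn3Ck (cn2PH true true) (cn2PV e true true) cn2Ph (cn2Pv e) 12 cn2AP ps cn3C
      = true := by
  obtain rfl | rfl : e = 0 ∨ e = 1 := by omega
  · exact ⟨cn3P0, by decide +kernel⟩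
  · exact ⟨cn3P1, by decide +kernel⟩

/-- the vertices of a pair in local coordinates -/
theorem cn3_vt {s : List Sub} {M : ℕ} {T : ℕ → Bool} (hT : VT M T) {x i y : ℕ} (hTi : T i = true)
    (hy : y < 12) (h : Vert (hN s M T) (vN s M T) (5 + 4 * s.length + x, 4 + 6 * i + y)) :
    x < 19 ∧ ((x = 0 ∧ y % 2 = 1) ∨ cn2Vt cn2Ph (cn2Pv (i % 2)) x y = true) := by
  have hi := hT.lt i hTi
  have hU : rk T i = .U := cn2_rkU.2 hTi
  have hL : rk T (i + 1) = .L := by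
    have h1 := hT.sep i hTi
    unfold rk
    rw [if_neg (by rw [h1]; simp), if_pos ⟨by omega, by simpa using hTi⟩]
  rcases Nat.lt_or_ge y 6 with hr | hr
  · obtain ⟨_, hx19, hV⟩ := cn2_vert hT hr h
    refine ⟨hx19, ?_⟩
    rcases hV with h0 | hV
    · left
      omega
    right
    rw [hU] at hV
    have hP : ∀ x, cn2Ph x y = hE .U y x := fun x => if_pos hr
    have hPv : ∀ x r', r' < 6 → cn2Pv (i % 2) x r' = vE .U i r' x := fun x r' hr' => by
      rw [cn2_vE]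
      exact if_pos hr'
    unfold cn2Vt
    simp only [Bool.or_eq_true, Bool.and_eq_true, Nat.beq_eq, Nat.blt_eq]
    rcases hV with h | h | h | h | h
    · exact Or.inl (Or.inl (Or.inl ((hP x).trans h)))
    · exact Or.inl (Or.inl (Or.inr ⟨Nat.pos_of_ne_zero h.1, (hP _).trans h.2⟩))
    · exact Or.inl (Or.inr ((hPv x y hr).trans h))
    · exact Or.inr ⟨Nat.pos_of_ne_zero h.1, (hPv x (y - 1) (by omega)).trans h.2⟩
    · exfalso
      have h1 := cn2_rkU.1 h.2.2.1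
      have h3 := hT.sep _ h1
      rw [Nat.sub_add_cancel (Nat.pos_of_ne_zero h.2.1), hTi] at h3
      exact absurd h3 (by decide)
  · obtain ⟨r, rfl⟩ : ∃ r, y = 6 + r := ⟨y - 6, by omega⟩
    have hr6 : r < 6 := by omega
    have e0 : 4 + 6 * i + (6 + r) = 4 + 6 * (i + 1) + r := by omega
    rw [e0] at h
    obtain ⟨_, hx19, hV⟩ := cn2_vert hT hr6 h
    refine ⟨hx19, ?_⟩
    rcases hV with h0 | hV
    · left
      omega
    right
    rw [hL] at hV
    have hP : ∀ x, cn2Ph x (6 + r) = hE .L r x := fun x => by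
      unfold cn2Ph
      rw [if_neg (by omega), show 6 + r - 6 = r by omega]
    have hPv : ∀ x r', cn2Pv (i % 2) x (6 + r') = vE .L (i + 1) r' x := fun x r' => by
      unfold cn2Pv
      rw [if_neg (by omega), show 6 + r' - 6 = r' by omega, ← cn2_vE']
    unfold cn2Vt
    simp only [Bool.or_eq_true, Bool.and_eq_true, Nat.beq_eq, Nat.blt_eq]
    rcases hV with h | h | h | h | h
    · exact Or.inl (Or.inl (Or.inl ((hP x).trans h)))
    · exact Or.inl (Or.inl (Or.inr ⟨Nat.pos_of_ne_zero h.1, (hP _).trans h.2⟩))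
    · exact Or.inl (Or.inr ((hPv x r).trans h))
    · refine Or.inr ⟨by omega, ?_⟩
      rw [show 6 + r - 1 = 6 + (r - 1) by omega]
      exact (hPv x (r - 1)).trans h.2
    · refine Or.inr ⟨by omega, ?_⟩
      obtain ⟨rfl, _, _, h4⟩ := h
      have e1 : i + 1 - 1 = i := by omega
      rw [e1] at h4
      unfold cn2Pv
      rw [show 6 + 0 - 1 = 5 by rfl, if_pos (by omega), ← cn2_vE]
      exact h4

theorem st_CN3 : ST_CN3 := by
  intro s M T a ch hT S hS hanch b hb hx hy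
  rcases st_CN2 s M T a ch hT S hS hanch b hb hx hy with h0 | ⟨i₀, hTi, hf, hg, h1, h2⟩
  · exact Or.inl h0
  obtain ⟨X, Y⟩ := b
  simp only at hx hy h1 h2
  obtain ⟨x, rfl⟩ : ∃ x, X = 5 + 4 * s.length + x := ⟨X - (5 + 4 * s.length), by omega⟩
  obtain ⟨y, rfl⟩ : ∃ y, Y = 4 + 6 * i₀ + y := ⟨Y - (4 + 6 * i₀), by omega⟩
  have hy12 : y < 12 := by omega
  have hi₀ := hT.lt i₀ hTi
  have hU : rk T i₀ = .U := cn2_rkU.2 hTi
  have hL : rk T (i₀ + 1) = .L := by
    have h1 := hT.sep i₀ hTi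
    unfold rk
    rw [if_neg (by rw [h1]; simp), if_pos ⟨by omega, by simpa using hTi⟩]
  have anch : ∀ i, i < 2 * M + 1 → (S (5 + 4 * s.length + 0, 4 + 6 * i + 1) ↔ S (1, 3)) ∧
      (S (5 + 4 * s.length + 0, 4 + 6 * i + 3) ↔ S (1, 3)) ∧
      (S (5 + 4 * s.length + 0, 4 + 6 * i + 5) ↔ S (1, 3)) ∧
      (S (5 + 4 * s.length + 18, 4 + 6 * i + 4) ↔ S (1, 3)) := by
    intro i hi
    have h := hanch i hi
    have e1 : 4 + 6 * i + 1 = 5 + 6 * i := by omega
    have e2 : 4 + 6 * i + 3 = 7 + 6 * i := by omega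
    have e3 : 4 + 6 * i + 5 = 9 + 6 * i := by omega
    have e4 : 4 + 6 * i + 4 = 8 + 6 * i := by omega
    have e5 : 5 + 4 * s.length + 18 = 23 + 4 * s.length := by omega
    rw [e1, e2, e3, e4, e5]
    exact h
  have hanP : ∀ p ∈ cn2AP, (S (5 + 4 * s.length + p.1, 4 + 6 * i₀ + p.2) ↔ S (1, 3)) := by
    intro p hp
    obtain ⟨a1, a2, a3, a4⟩ := anch i₀ (by omega)
    obtain ⟨b1, b2, b3, b4⟩ := anch (i₀ + 1) hi₀
    have e1 : 4 + 6 * (i₀ + 1) + 1 = 4 + 6 * i₀ + 7 := by omega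
    have e2 : 4 + 6 * (i₀ + 1) + 3 = 4 + 6 * i₀ + 9 := by omega
    have e3 : 4 + 6 * (i₀ + 1) + 5 = 4 + 6 * i₀ + 11 := by omega
    have e4 : 4 + 6 * (i₀ + 1) + 4 = 4 + 6 * i₀ + 10 := by omega
    rw [e1] at b1
    rw [e2] at b2
    rw [e3] at b3
    rw [e4] at b4
    simp only [cn2AP, List.mem_cons, List.not_mem_nil, or_false] at hp
    rcases hp with rfl | rfl | rfl | rfl | rfl | rfl | rfl | rfl
    exacts [a1, a2, a3, a4, b1, b2, b3, b4]
  obtain ⟨hx19, hV⟩ := cn3_vt hT hTi hy12 hb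
  rcases hV with ⟨rfl, hodd⟩ | hV
  · left
    have hc : y = 1 ∨ y = 3 ∨ y = 5 ∨ y = 7 ∨ y = 9 ∨ y = 11 := by omega
    rcases hc with rfl | rfl | rfl | rfl | rfl | rfl
    · exact hanP (0, 1) (by simp [cn2AP])
    · exact hanP (0, 3) (by simp [cn2AP])
    · exact hanP (0, 5) (by simp [cn2AP])
    · exact hanP (0, 7) (by simp [cn2AP])
    · exact hanP (0, 9) (by simp [cn2AP])
    · exact hanP (0, 11) (by simp [cn2AP])
  obtain ⟨ps, hps⟩ := cn3_ckP (i₀ % 2) (Nat.mod_lt _ (by norm_num))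
  have hmain := cn3_ck (S' := fun p => S (5 + 4 * s.length + p.1, 4 + 6 * i₀ + p.2)) hps ?_ ?_
    (S (1, 3)) hanP x y hx19 hy12 hV
  · rcases hmain with h3 | ⟨c, hc, h3⟩
    · exact Or.inl h3
    · right
      refine ⟨i₀, hTi, ?_⟩
      simp only [cn3C, List.mem_cons, List.not_mem_nil, or_false] at hc
      rcases hc with rfl | rfl
      · left
        have e1 : 5 + 4 * s.length + 3 = 8 + 4 * s.length := by omega
        have e2 : 4 + 6 * i₀ + 8 = 12 + 6 * i₀ := by omega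
        simp only [e1, e2] at h3
        exact h3
      · right
        have e1 : 5 + 4 * s.length + 9 = 14 + 4 * s.length := by omega
        have e2 : 4 + 6 * i₀ + 9 = 13 + 6 * i₀ := by omega
        simp only [e1, e2] at h3
        exact h3
  · intro x y hy h
    have h1 := hS.1 (5 + 4 * s.length + x) (4 + 6 * i₀ + y)
    have h2 : hNU s M T a ch (5 + 4 * s.length + x) (4 + 6 * i₀ + y) = true := by
      unfold cn2PH at h
      split_ifs at h with hy6
      · rw [hNU_row (i := i₀) (by omega) hy6 rfl rfl, hU, hf]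
        unfold cn2H at h
        rw [cn2_hOE _ (by decide)]
        exact h
      · rw [hNU_row (i := i₀ + 1) (r := y - 6) (x := x) (by omega) (by omega) rfl (by omega), hL,
          hg, show i₀ + 1 - 1 = i₀ by omega, hf]
        unfold cn2H at h
        exact h
    have h3 := h1 h2
    have e1 : 5 + 4 * s.length + (x + 1) = 5 + 4 * s.length + x + 1 := by omega
    simp only [e1]
    exact h3
  · intro x y hy h
    have h1 := hS.2 (5 + 4 * s.length + x) (4 + 6 * i₀ + y)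
    have h2 : vNU s M T a ch (5 + 4 * s.length + x) (4 + 6 * i₀ + y) = true := by
      unfold cn2PV at h
      split_ifs at h with hy6
      · rw [vNU_row (i := i₀) (by omega) hy6 rfl rfl, hU, cn2_vE, hf]
        unfold cn2V at h
        rw [cn2_vOE _ (by decide)]
        exact h
      · rw [vNU_row (i := i₀ + 1) (r := y - 6) (x := x) (by omega) (by omega) rfl (by omega), hL,
          cn2_vE', hg, show i₀ + 1 - 1 = i₀ by omega, hf]
        unfold cn2V at h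
        exact h
    have h3 := h1 h2
    have e1 : 4 + 6 * i₀ + (y + 1) = 4 + 6 * i₀ + y + 1 := by omega
    simp only [e1]
    exact h3

end Pool.Agent.Helper96.SE
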